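import Pool.Agent.H70.CharVar.Conn
import Pool.Agent.H70.CharVar.Reductive
import Pool.Agent.H70.CharVar.Centralizer

/-!
# A component of a smooth character variety without rational points

For every genus `g ≥ 2` there are a connected reductive group `G` over `ℚ`, a `G(ℝ)`-invariant
Zariski open set `Ω` of representations such that `Ω / G(ℝ)` is a smooth manifold, and a connected
component `X` of `Ω / G(ℝ)` with `X_ℚ = ∅`.

The group is `G = R_{ℚ(√2)/ℚ} SO_3`, so `G(ℝ) = SO(3) × SO(3)` and `G(ℚ) = SO_3(ℚ(√2))`.
A representation into `SO(3) × SO(3)` has two Stiefel-Whitney classes `±1`: the product of the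
commutators of the lifts of the generators to unit quaternions. If the representation is
rational these two signs are Galois conjugate elements of `{1, -1} ⊆ ℚ(√2)`, hence equal. So the
components where the two signs differ contain no rational point.
-/

set_option autoImplicit false

noncomputable section

namespace Pool.Agent.Results.MP_f64102_gt.EmptyRationalComponent

open Pool.Agent.H70.CharVar

/-- For every `g ≥ 2` there are a connected reductive linear algebraic group `G` over `ℚ` and a
`G(ℝ)`-invariant Zariski open set `Ω ⊆ Hom(π_1(S_g), G(ℝ))`, all of whose members have trivial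
centralizer in `G(ℂ)`, such that `Ω / G(ℝ)` is a smooth manifold of dimension `12 (g - 1)` and has
a connected component which contains no class of a representation conjugate into `G(ℚ)`. -/
theorem result (g : ℕ) (hg : 2 ≤ g) :
    ∃ (G : LinAlgGroup (Fin 3 ⊕ Fin 3)) (Ω : Set (RepSpace g G)),
      G.IsConnected ∧ G.IsReductive ∧ IsInvariant Ω ∧ IsZariskiOpen Ω ∧
      HasTrivialCentralizers Ω ∧ QuotientIsSmoothManifold Ω (12 * (g - 1)) ∧
      ∃ x : CharQuotient Ω, ∀ y ∈ connectedComponent x, ¬ IsRationalClass Ω y := by
  obtain ⟨m, rfl⟩ : ∃ m, g = m + 2 := ⟨g - 2, by omega⟩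
  refine ⟨G0, Omega m, G0_isConnected, G0_isReductive, isInvariant_Omega, isZariskiOpen_Omega m,
    centralizer_trivial, ?_, x0 m, component_no_rational⟩
  exact omega_isManifold m

/-- The density statement asked for: for every `g ≥ 2`, every connected reductive `G` over `ℚ`,
every invariant Zariski open `Ω` with `Ω / G(ℝ)` a smooth manifold, and every connected component
`X` of `Ω / G(ℝ)`, the set `X_ℚ` is dense in `X`. -/
def DensityStatement : Prop :=
  ∀ (g : ℕ), 2 ≤ g → ∀ (ι : Type) [Fintype ι] [DecidableEq ι] (G : LinAlgGroup ι),
    G.IsConnected → G.IsReductive → ∀ Ω : Set (RepSpace g G), IsInvariant Ω → IsZariskiOpen Ω →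
    (∃ d, QuotientIsSmoothManifold Ω d) → ∀ x : CharQuotient Ω,
    connectedComponent x ⊆ closure {y ∈ connectedComponent x | IsRationalClass Ω y}

/-- The density statement is false. -/
theorem not_densityStatement : ¬ DensityStatement := by
  intro h
  obtain ⟨G, Ω, h1, h2, h3, h4, -, h5, x, hx⟩ := result 2 le_rfl
  have h6 := h 2 le_rfl _ G h1 h2 Ω h3 h4 ⟨_, h5⟩ x
  have h7 : {y ∈ connectedComponent x | IsRationalClass Ω y} = ∅ := by
    ext y
    simp only [Set.mem_ofPred_eq, Set.mem_empty_iff_false, iff_false, not_and]
    exact hx y
  rw [h7, closure_empty] at h6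
  exact h6 mem_connectedComponent

end Pool.Agent.Results.MP_f64102_gt.EmptyRationalComponent
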